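import Mathlib

/-!
# Symmetric products of a space with the fixed point property

The hedgehog `E` with countably many closed spines (the segments `[0, 1]`, glued at `0`, with the
path metric) has the fixed point property, but none of its symmetric products `E(n)`, `n ≥ 2`, has.
-/

namespace Pool.Agent.Results.MP_3eb21e_gt.HedgehogPowers

open Set

/-- The fixed point property: every continuous self-map has a fixed point. -/
def FixedPointProperty (X : Type*) [TopologicalSpace X] : Prop :=
  ∀ f : X → X, Continuous f → ∃ x, f x = x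

/-- The underlying set of the symmetric product `E(n)`: the nonempty subsets of `E` with at most
`n` elements. -/
def SymProd (E : Type*) (n : ℕ) : Type _ :=
  {s : Set E // s.Nonempty ∧ s.Finite ∧ s.ncard ≤ n}

/-- The basic open sets of `E(n)`: for open sets `u 1, …, u k` of `E`, all members of `E(n)`
that are contained in `u 1 ∪ … ∪ u k` and meet every `u i`. -/
def basicSet (E : Type*) (n : ℕ) {k : ℕ} (u : Fin k → Set E) : Set (SymProd E n) :=
  {s | s.1 ⊆ ⋃ i, u i ∧ ∀ i, (s.1 ∩ u i).Nonempty}

/-- The topology of the symmetric product, generated by the sets `basicSet`. -/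
instance (E : Type*) [TopologicalSpace E] (n : ℕ) : TopologicalSpace (SymProd E n) :=
  TopologicalSpace.generateFrom
    {A | ∃ (k : ℕ) (u : Fin k → Set E), (∀ i, IsOpen (u i)) ∧ A = basicSet E n u}

/-! ### The hedgehog -/

/-- The points of the hedgehog: `(k, t)` with `0 < t ≤ 1` is the point at distance `t` from the
centre on the `k`-th spine, and `(0, 0)` is the centre. -/
def Hedgehog : Type := {p : ℕ × ℝ // 0 ≤ p.2 ∧ p.2 ≤ 1 ∧ (p.2 = 0 → p.1 = 0)}

namespace Hedgehog

/-- the distance of the hedgehog -/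
noncomputable def d (x y : Hedgehog) : ℝ :=
  if x.1.1 = y.1.1 then |x.1.2 - y.1.2| else x.1.2 + y.1.2

lemma d_le_add (x y : Hedgehog) : d x y ≤ x.1.2 + y.1.2 := by
  unfold d
  have hx := x.2.1
  have hy := y.2.1
  split_ifs
  · rw [abs_le]
    constructor <;> linarith
  · exact le_rfl

lemma abs_le_d (x y : Hedgehog) : |x.1.2 - y.1.2| ≤ d x y := by
  unfold d
  have hx := x.2.1
  have hy := y.2.1
  split_ifs
  · exact le_rfl
  · rw [abs_le]
    constructor <;> linarith

lemma d_triangle (x y z : Hedgehog) : d x z ≤ d x y + d y z := by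
  have hx := x.2.1
  have hy := y.2.1
  have hz := z.2.1
  have h1 := abs_le_d x y
  have h2 := abs_le_d y z
  by_cases hxz : x.1.1 = z.1.1
  · have : d x z = |x.1.2 - z.1.2| := if_pos hxz
    rw [this]
    calc |x.1.2 - z.1.2| ≤ |x.1.2 - y.1.2| + |y.1.2 - z.1.2| := abs_sub_le _ _ _
      _ ≤ _ := by linarith
  · have : d x z = x.1.2 + z.1.2 := if_neg hxz
    rw [this]
    by_cases hxy : x.1.1 = y.1.1
    · have hyz : y.1.1 ≠ z.1.1 := fun h => hxz (hxy.trans h)
      have h3 : d y z = y.1.2 + z.1.2 := if_neg hyz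
      rw [abs_le] at h1
      linarith [h1.2]
    · have h3 : d x y = x.1.2 + y.1.2 := if_neg hxy
      rw [abs_le] at h2
      linarith [h2.1]

noncomputable instance : MetricSpace Hedgehog where
  dist := d
  dist_self x := by
    show d x x = 0
    simp [d]
  dist_comm x y := by
    show d x y = d y x
    unfold d
    by_cases h : x.1.1 = y.1.1
    · rw [if_pos h, if_pos h.symm, abs_sub_comm]
    · rw [if_neg h, if_neg (Ne.symm h), add_comm]
  dist_triangle := d_triangle
  eq_of_dist_eq_zero := by
    intro x y h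
    have h' : d x y = 0 := h
    have hx := x.2.1
    have hy := y.2.1
    by_cases hxy : x.1.1 = y.1.1
    · have h1 : d x y = |x.1.2 - y.1.2| := if_pos hxy
      rw [h1, abs_eq_zero, sub_eq_zero] at h'
      exact Subtype.ext (Prod.ext hxy h')
    · have h1 : d x y = x.1.2 + y.1.2 := if_neg hxy
      rw [h1] at h'
      have hx0 : x.1.2 = 0 := by linarith
      have hy0 : y.1.2 = 0 := by linarith
      exact absurd ((x.2.2.2 hx0).trans (y.2.2.2 hy0).symm) hxy

lemma dist_def (x y : Hedgehog) : dist x y = d x y := rfl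

/-- The point of the `k`-th spine at distance `t` from the centre. -/
noncomputable def pt (k : ℕ) (t : ℝ) (h0 : 0 ≤ t) (h1 : t ≤ 1) : Hedgehog :=
  ⟨(if t = 0 then 0 else k, t), h0, h1, fun h => if_pos h⟩

@[simp] lemma pt_snd (k : ℕ) (t : ℝ) (h0 : 0 ≤ t) (h1 : t ≤ 1) : (pt k t h0 h1).1.2 = t := rfl

lemma pt_fst (k : ℕ) (t : ℝ) (h0 : 0 ≤ t) (h1 : t ≤ 1) (ht : t ≠ 0) :
    (pt k t h0 h1).1.1 = k := if_neg ht

lemma dist_pt_same (k : ℕ) (s t : ℝ) (h0 : 0 ≤ s) (h1 : s ≤ 1) (h0' : 0 ≤ t) (h1' : t ≤ 1) :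
    dist (pt k s h0 h1) (pt k t h0' h1') = |s - t| := by
  rw [dist_def]
  unfold d
  by_cases hs : s = 0
  · by_cases ht : t = 0
    · subst hs
      subst ht
      simp [pt]
    · subst hs
      simp only [pt_snd, zero_sub, abs_neg, zero_add]
      rw [abs_of_nonneg h0']
      split_ifs <;> rfl
  · by_cases ht : t = 0
    · subst ht
      simp only [pt_snd, sub_zero, add_zero]
      rw [abs_of_nonneg h0]
      split_ifs <;> rfl
    · rw [if_pos]
      · rfl
      · rw [pt_fst _ _ _ _ hs, pt_fst _ _ _ _ ht]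

/-- The coordinate along the `k`-th spine. -/
noncomputable def coord (k : ℕ) (x : Hedgehog) : ℝ := if x.1.1 = k then x.1.2 else 0

lemma coord_nonneg (k : ℕ) (x : Hedgehog) : 0 ≤ coord k x := by
  unfold coord
  split_ifs
  · exact x.2.1
  · exact le_rfl

lemma coord_le_one (k : ℕ) (x : Hedgehog) : coord k x ≤ 1 := by
  unfold coord
  split_ifs
  · exact x.2.2.1
  · exact zero_le_one

lemma abs_coord_sub_le (k : ℕ) (x y : Hedgehog) : |coord k x - coord k y| ≤ dist x y := by
  rw [dist_def]
  have hx := x.2.1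
  have hy := y.2.1
  unfold coord
  split_ifs with h1 h2 h2
  · exact abs_le_d x y
  · have h3 : x.1.1 ≠ y.1.1 := fun h => h2 (h ▸ h1)
    have : d x y = x.1.2 + y.1.2 := if_neg h3
    rw [this, sub_zero, abs_of_nonneg hx]
    linarith
  · have h3 : x.1.1 ≠ y.1.1 := fun h => h1 (h ▸ h2)
    have : d x y = x.1.2 + y.1.2 := if_neg h3
    rw [this, zero_sub, abs_neg, abs_of_nonneg hy]
    linarith
  · simp only [sub_zero, abs_zero]
    exact (abs_nonneg _).trans (abs_le_d x y)

lemma continuous_coord (k : ℕ) : Continuous (coord k) := by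
  apply LipschitzWith.continuous (K := 1)
  apply LipschitzWith.of_dist_le_mul
  intro x y
  simpa [Real.dist_eq] using abs_coord_sub_le k x y

/-- The hedgehog has the fixed point property. -/
lemma fixedPointProperty : FixedPointProperty Hedgehog := by
  intro f hf
  let o : Hedgehog := pt 0 0 le_rfl zero_le_one
  by_cases h0 : (f o).1.2 = 0
  · refine ⟨o, ?_⟩
    apply Subtype.ext
    apply Prod.ext
    · rw [(f o).2.2.2 h0]
      show 0 = (pt 0 0 le_rfl zero_le_one).1.1
      simp [pt]
    · exact h0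
  · -- the spine of `f o`
    let k := (f o).1.1
    let c : Icc (0 : ℝ) 1 → Hedgehog := fun t => pt k t.1 t.2.1 t.2.2
    have hc : Continuous c := by
      apply LipschitzWith.continuous (K := 1)
      apply LipschitzWith.of_dist_le_mul
      intro s t
      rw [dist_pt_same]
      simp [Subtype.dist_eq, Real.dist_eq]
    have hg : Continuous fun t : Icc (0 : ℝ) 1 => coord k (f (c t)) :=
      (continuous_coord k).comp (hf.comp hc)
    -- a point `t` with `coord k (f (c t)) = t`
    have hex : ∃ t : Icc (0 : ℝ) 1, coord k (f (c t)) = t.1 := by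
      have h1 : (fun t : Icc (0 : ℝ) 1 => (t.1 : ℝ)) ⟨0, by simp⟩ ≤
          (fun t : Icc (0 : ℝ) 1 => coord k (f (c t))) ⟨0, by simp⟩ := coord_nonneg _ _
      have h2 : (fun t : Icc (0 : ℝ) 1 => coord k (f (c t))) ⟨1, by simp⟩ ≤
          (fun t : Icc (0 : ℝ) 1 => (t.1 : ℝ)) ⟨1, by simp⟩ := coord_le_one _ _
      obtain ⟨t, ht⟩ := intermediate_value_univ₂ continuous_subtype_val hg h1 h2
      exact ⟨t, ht.symm⟩
    obtain ⟨t, ht⟩ := hex
    have hk : coord k (f o) = (f o).1.2 := if_pos rfl
    have ht0 : t.1 ≠ 0 := by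
      intro h
      have hct : c t = o := by
        have : t = ⟨0, by simp⟩ := Subtype.ext h
        subst this
        apply Subtype.ext
        apply Prod.ext
        · show (if (0 : ℝ) = 0 then 0 else k) = (if (0 : ℝ) = 0 then 0 else 0)
          simp
        · rfl
      rw [hct, hk, h] at ht
      exact h0 ht
    refine ⟨c t, ?_⟩
    have hfk : (f (c t)).1.1 = k := by
      by_contra hne
      have : coord k (f (c t)) = 0 := if_neg hne
      exact ht0 (by rw [← ht, this])
    have h3 : coord k (f (c t)) = (f (c t)).1.2 := if_pos hfk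
    apply Subtype.ext
    apply Prod.ext
    · rw [hfk]
      exact (pt_fst _ _ _ _ ht0).symm
    · rw [← h3, ht]
      rfl

/-! ### Completeness, separability, contractibility -/

/-- the centre -/
noncomputable def centre : Hedgehog := pt 0 0 le_rfl zero_le_one

lemma dist_centre (x : Hedgehog) : dist x centre = x.1.2 := by
  rw [dist_def]
  unfold d
  have hx := x.2.1
  have h0 : centre.1.2 = 0 := rfl
  rw [h0, sub_zero, add_zero, abs_of_nonneg hx]
  split_ifs <;> rfl

lemma exists_pt (x : Hedgehog) : x = pt x.1.1 x.1.2 x.2.1 x.2.2.1 := by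
  apply Subtype.ext
  apply Prod.ext
  · show x.1.1 = if x.1.2 = 0 then 0 else x.1.1
    split_ifs with h
    · exact x.2.2.2 h
    · rfl
  · rfl

lemma separable : TopologicalSpace.SeparableSpace Hedgehog := by
  let c : ℕ × Icc (0 : ℝ) 1 → Hedgehog := fun p => pt p.1 p.2.1 p.2.2.1 p.2.2.2
  have hc : Continuous c := by
    rw [continuous_prod_of_discrete_left]
    intro k
    apply LipschitzWith.continuous (K := 1)
    apply LipschitzWith.of_dist_le_mul
    intro s t
    show dist (pt k s.1 s.2.1 s.2.2) (pt k t.1 t.2.1 t.2.2) ≤ _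
    rw [dist_pt_same]
    simp [Subtype.dist_eq, Real.dist_eq]
  have hs : Function.Surjective c := fun x => ⟨(x.1.1, ⟨x.1.2, x.2.1, x.2.2.1⟩), (exists_pt x).symm⟩
  exact hs.denseRange.separableSpace hc

lemma complete : CompleteSpace Hedgehog := by
  apply Metric.complete_of_cauchySeq_tendsto
  intro u hu
  have hr : CauchySeq fun n => (u n).1.2 := by
    rw [Metric.cauchySeq_iff] at hu ⊢
    intro ε hε
    obtain ⟨N, hN⟩ := hu ε hε
    exact ⟨N, fun m hm n hn => lt_of_le_of_lt (by
      rw [Real.dist_eq]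
      exact abs_le_d _ _) (hN m hm n hn)⟩
  obtain ⟨r, hr⟩ := cauchySeq_tendsto_of_complete hr
  have hr0 : 0 ≤ r := ge_of_tendsto' hr fun n => (u n).2.1
  have hr1 : r ≤ 1 := le_of_tendsto' hr fun n => (u n).2.2.1
  rcases hr0.eq_or_lt with h0 | h0
  · refine ⟨centre, ?_⟩
    rw [tendsto_iff_dist_tendsto_zero]
    simp only [dist_centre]
    subst h0
    exact hr
  · -- eventually all terms are on one spine
    rw [Metric.cauchySeq_iff'] at hu
    obtain ⟨N, hN⟩ := hu (r / 2) (by linarith)
    have h1 : ∀ᶠ n in Filter.atTop, r / 2 < (u n).1.2 := hr.eventually_const_lt (by linarith)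
    have h2 : ∀ᶠ n in Filter.atTop, (u n).1.1 = (u N).1.1 := by
      filter_upwards [h1, Filter.eventually_ge_atTop N] with n h3 h4
      by_contra hne
      have h5 : dist (u n) (u N) = (u n).1.2 + (u N).1.2 := if_neg hne
      have h6 := hN n h4
      have h7 := (u N).2.1
      rw [h5] at h6
      linarith
    refine ⟨pt (u N).1.1 r hr0 hr1, ?_⟩
    rw [tendsto_iff_dist_tendsto_zero]
    have h3 : Filter.Tendsto (fun n => |(u n).1.2 - r|) Filter.atTop (nhds 0) := by
      have := (hr.sub_const r).abs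
      simpa using this
    apply h3.congr'
    filter_upwards [h2] with n hn
    have h4 : dist (pt (u n).1.1 (u n).1.2 (u n).2.1 (u n).2.2.1) (pt (u n).1.1 r hr0 hr1) =
        |(u n).1.2 - r| := dist_pt_same _ _ _ _ _ _ _
    rw [← exists_pt, hn] at h4
    exact h4.symm

/-- the contraction to the centre -/
noncomputable def scale (s : Icc (0 : ℝ) 1) (x : Hedgehog) : Hedgehog :=
  pt x.1.1 (s.1 * x.1.2) (mul_nonneg s.2.1 x.2.1) (mul_le_one₀ s.2.2 x.2.1 x.2.2.1)

lemma dist_scale_le (s t : Icc (0 : ℝ) 1) (x y : Hedgehog) :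
    dist (scale s x) (scale t y) ≤ |s.1 - t.1| + dist x y := by
  have hs0 := s.2.1
  have hs1 := s.2.2
  have ht0 := t.2.1
  have ht1 := t.2.2
  have hx0 := x.2.1
  have hx1 := x.2.2.1
  have hy0 := y.2.1
  by_cases hxy : x.1.1 = y.1.1
  · have h1 : dist x y = |x.1.2 - y.1.2| := if_pos hxy
    have h2 : dist (scale s x) (scale t y) = |s.1 * x.1.2 - t.1 * y.1.2| := by
      unfold scale
      simp only [hxy]
      exact dist_pt_same _ _ _ _ _ _ _
    rw [h1, h2]
    have h3 : s.1 * x.1.2 - t.1 * y.1.2 = (s.1 - t.1) * x.1.2 + t.1 * (x.1.2 - y.1.2) := by ring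
    rw [h3]
    refine (abs_add_le _ _).trans (add_le_add ?_ ?_)
    · rw [abs_mul, abs_of_nonneg hx0]
      exact mul_le_of_le_one_right (abs_nonneg _) hx1
    · rw [abs_mul, abs_of_nonneg ht0]
      exact mul_le_of_le_one_left (abs_nonneg _) ht1
  · have h1 : dist x y = x.1.2 + y.1.2 := if_neg hxy
    have h2 : dist (scale s x) (scale t y) ≤ s.1 * x.1.2 + t.1 * y.1.2 := d_le_add _ _
    rw [h1]
    have h3 := abs_nonneg (s.1 - t.1)
    have h4 : s.1 * x.1.2 ≤ x.1.2 := mul_le_of_le_one_left hx0 hs1
    have h5 : t.1 * y.1.2 ≤ y.1.2 := mul_le_of_le_one_left hy0 ht1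
    linarith

lemma continuous_scale : Continuous fun p : Icc (0 : ℝ) 1 × Hedgehog => scale p.1 p.2 := by
  apply LipschitzWith.continuous (K := 2)
  apply LipschitzWith.of_dist_le_mul
  intro p q
  refine (dist_scale_le _ _ _ _).trans ?_
  have h1 : |(p.1.1 : ℝ) - q.1.1| ≤ dist p q := by
    have : |(p.1.1 : ℝ) - q.1.1| = dist p.1 q.1 := by
      rw [Subtype.dist_eq, Real.dist_eq]
    rw [this, Prod.dist_eq]
    exact le_max_left _ _
  have h2 : dist p.2 q.2 ≤ dist p q := by
    rw [Prod.dist_eq]
    exact le_max_right _ _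
  have h3 : ((2 : NNReal) : ℝ) = 2 := rfl
  rw [h3]
  linarith

lemma contractible : ContractibleSpace Hedgehog := by
  rw [contractible_iff_id_nullhomotopic]
  refine ⟨centre, ⟨⟨⟨fun p => scale (unitInterval.symm p.1) p.2, ?_⟩, ?_, ?_⟩⟩⟩
  · exact continuous_scale.comp (((unitInterval.continuous_symm).comp continuous_fst).prodMk
      continuous_snd)
  · intro x
    show scale (unitInterval.symm 0) x = x
    rw [unitInterval.symm_zero]
    unfold scale
    conv_rhs => rw [exists_pt x]
    simp
  · intro x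
    show scale (unitInterval.symm 1) x = centre
    rw [unitInterval.symm_one]
    unfold scale centre pt
    apply Subtype.ext
    simp

/-! ### A path that visits the ends of all spines -/

/-- The position along the spine as a function of the fractional part. -/
noncomputable def pos (u : ℝ) : ℝ := min 1 (min (4 * u) (4 * (1 - u)))

lemma pos_nonneg {u : ℝ} (h0 : 0 ≤ u) (h1 : u ≤ 1) : 0 ≤ pos u := by
  unfold pos
  refine le_min zero_le_one (le_min ?_ ?_) <;> linarith

lemma pos_le_one (u : ℝ) : pos u ≤ 1 := min_le_left _ _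

lemma abs_pos_sub_le (u v : ℝ) : |pos u - pos v| ≤ 4 * |u - v| := by
  unfold pos
  calc |min 1 (min (4 * u) (4 * (1 - u))) - min 1 (min (4 * v) (4 * (1 - v)))|
      ≤ max |(1 : ℝ) - 1| |min (4 * u) (4 * (1 - u)) - min (4 * v) (4 * (1 - v))| :=
        abs_min_sub_min_le_max _ _ _ _
    _ ≤ max |(1 : ℝ) - 1| (max |4 * u - 4 * v| |4 * (1 - u) - 4 * (1 - v)|) :=
        max_le_max le_rfl (abs_min_sub_min_le_max _ _ _ _)
    _ ≤ 4 * |u - v| := by
        have h1 : |4 * u - 4 * v| = 4 * |u - v| := by
          rw [← mul_sub, abs_mul]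
          norm_num
        have h2 : |4 * (1 - u) - 4 * (1 - v)| = 4 * |u - v| := by
          have : 4 * (1 - u) - 4 * (1 - v) = 4 * (v - u) := by ring
          rw [this, abs_mul, abs_sub_comm]
          norm_num
        rw [h1, h2]
        simp

/-- The path: during the time interval `[k, k + 1]` it goes along the `k`-th spine to its end and
back to the centre. -/
noncomputable def path (t : ℝ) : Hedgehog :=
  pt ⌊t⌋₊ (pos (Int.fract t)) (pos_nonneg (Int.fract_nonneg t) (Int.fract_lt_one t).le)
    (pos_le_one _)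

lemma path_end {t : ℝ} (h0 : 1 / 4 ≤ Int.fract t) (h1 : Int.fract t ≤ 3 / 4) :
    (path t).1.1 = ⌊t⌋₊ ∧ (path t).1.2 = 1 := by
  have h : pos (Int.fract t) = 1 := by
    unfold pos
    apply min_eq_left
    apply le_min <;> linarith
  refine ⟨?_, h⟩
  apply pt_fst
  rw [h]
  norm_num

lemma dist_path_le {s t : ℝ} (hs : 0 ≤ s) (hst : s ≤ t) : dist (path s) (path t) ≤ 4 * (t - s) := by
  have ht : 0 ≤ t := hs.trans hst
  rcases lt_or_ge ⌊s⌋₊ ⌊t⌋₊ with h | h
  · -- different spines
    have h1 : dist (path s) (path t) ≤ pos (Int.fract s) + pos (Int.fract t) := d_le_add _ _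
    have h2 : pos (Int.fract s) ≤ 4 * (1 - Int.fract s) := (min_le_right _ _).trans (min_le_right _ _)
    have h3 : pos (Int.fract t) ≤ 4 * Int.fract t := (min_le_right _ _).trans (min_le_left _ _)
    have h4 : Int.fract s = s - ⌊s⌋₊ := by
      rw [Int.fract, ← natCast_floor_eq_intCast_floor hs]
    have h5 : Int.fract t = t - ⌊t⌋₊ := by
      rw [Int.fract, ← natCast_floor_eq_intCast_floor ht]
    have h6 : (⌊s⌋₊ : ℝ) + 1 ≤ ⌊t⌋₊ := by exact_mod_cast h
    linarith
  · have h' : ⌊s⌋₊ = ⌊t⌋₊ := le_antisymm (Nat.floor_mono hst) h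
    have h4 : Int.fract s = s - ⌊s⌋₊ := by
      rw [Int.fract, ← natCast_floor_eq_intCast_floor hs]
    have h5 : Int.fract t = t - ⌊t⌋₊ := by
      rw [Int.fract, ← natCast_floor_eq_intCast_floor ht]
    have h1 : dist (path s) (path t) = |pos (Int.fract s) - pos (Int.fract t)| := by
      have : path s = pt ⌊t⌋₊ (pos (Int.fract s))
          (pos_nonneg (Int.fract_nonneg s) (Int.fract_lt_one s).le) (pos_le_one _) := by
        unfold path
        simp only [h']
      rw [this]
      exact dist_pt_same _ _ _ _ _ _ _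
    rw [h1]
    refine (abs_pos_sub_le _ _).trans ?_
    have h6 : Int.fract s - Int.fract t = s - t := by
      rw [h4, h5, h']
      ring
    rw [h6, abs_sub_comm, abs_of_nonneg (by linarith)]

lemma dist_path_le' {s t : ℝ} (hs : 0 ≤ s) (ht : 0 ≤ t) : dist (path s) (path t) ≤ 4 * |s - t| := by
  rcases le_total s t with h | h
  · rw [abs_sub_comm, abs_of_nonneg (by linarith : 0 ≤ t - s)]
    exact dist_path_le hs h
  · rw [dist_comm, abs_of_nonneg (by linarith : 0 ≤ s - t)]
    exact dist_path_le ht h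

end Hedgehog

open Hedgehog

/-! ### A fixed point free map of `E(n)` -/

variable {n : ℕ}

/-- The member `{path t, path (t + 1 / 2)}` of `E(n)`. -/
noncomputable def gam (hn : 2 ≤ n) (t : ℝ) : SymProd Hedgehog n :=
  ⟨{path t, path (t + 1 / 2)}, ⟨_, mem_insert _ _⟩, (finite_singleton _).insert _,
    (ncard_insert_le _ _).trans (by rw [ncard_singleton]; exact hn)⟩

lemma continuousOn_gam (hn : 2 ≤ n) : ContinuousOn (gam hn) (Ici 0) := by
  rw [continuousOn_iff_continuous_domRestrict]
  rw [continuous_generateFrom_iff]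
  rintro A ⟨k, u, hu, rfl⟩
  rw [isOpen_iff_mem_nhds]
  rintro ⟨t, ht⟩ hmem
  have ht0 : (0 : ℝ) ≤ t := ht
  have hmem' : ({path t, path (t + 1 / 2)} : Set Hedgehog) ⊆ ⋃ i, u i ∧
      ∀ i, (({path t, path (t + 1 / 2)} : Set Hedgehog) ∩ u i).Nonempty := hmem
  obtain ⟨h1, h2⟩ := hmem'
  -- continuity of the two paths on the half-line
  have hp : Continuous fun s : Ici (0 : ℝ) => path s.1 := by
    apply LipschitzWith.continuous (K := 4)
    apply LipschitzWith.of_dist_le_mul
    intro s s'
    simpa [Subtype.dist_eq, Real.dist_eq] using dist_path_le' s.2 s'.2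
  have hq : Continuous fun s : Ici (0 : ℝ) => path (s.1 + 1 / 2) := by
    apply LipschitzWith.continuous (K := 4)
    apply LipschitzWith.of_dist_le_mul
    intro s s'
    have hs : (0 : ℝ) ≤ s.1 := s.2
    have hs' : (0 : ℝ) ≤ s'.1 := s'.2
    have := dist_path_le' (s := s.1 + 1 / 2) (t := s'.1 + 1 / 2) (by linarith) (by linarith)
    rw [add_sub_add_right_eq_sub] at this
    simpa [Subtype.dist_eq, Real.dist_eq] using this
  have e1 : ∀ᶠ s : Ici (0 : ℝ) in nhds ⟨t, ht⟩, path s.1 ∈ ⋃ i, u i :=
    hp.continuousAt.eventually ((isOpen_iUnion hu).mem_nhds (h1 (mem_insert _ _)))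
  have e2 : ∀ᶠ s : Ici (0 : ℝ) in nhds ⟨t, ht⟩, path (s.1 + 1 / 2) ∈ ⋃ i, u i :=
    hq.continuousAt.eventually ((isOpen_iUnion hu).mem_nhds
      (h1 (mem_insert_of_mem _ (mem_singleton _))))
  have e3 : ∀ᶠ s : Ici (0 : ℝ) in nhds ⟨t, ht⟩, ∀ i, path s.1 ∈ u i ∨ path (s.1 + 1 / 2) ∈ u i := by
    rw [Filter.eventually_all]
    intro i
    obtain ⟨x, hx, hxu⟩ := h2 i
    rcases hx with rfl | hx
    · exact (hp.continuousAt.eventually ((hu i).mem_nhds hxu)).mono fun s hs => Or.inl hs
    · rw [mem_singleton_iff] at hx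
      subst hx
      exact (hq.continuousAt.eventually ((hu i).mem_nhds hxu)).mono fun s hs => Or.inr hs
  filter_upwards [e1, e2, e3] with s h3 h4 h5
  refine ⟨?_, fun i => ?_⟩
  · rintro x (rfl | hx)
    · exact h3
    · rw [mem_singleton_iff] at hx
      subst hx
      exact h4
  · rcases h5 i with h | h
    · exact ⟨_, mem_insert _ _, h⟩
    · exact ⟨_, mem_insert_of_mem _ (mem_singleton _), h⟩

/-- A continuous function that vanishes on `[0, 1/2]` and is `1` at `1`. -/
noncomputable def bump (t : ℝ) : ℝ := max 0 (2 * t - 1)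

lemma bump_nonneg (t : ℝ) : 0 ≤ bump t := le_max_left _ _

lemma bump_one : bump 1 = 1 := by
  unfold bump
  norm_num

lemma bump_zero {t : ℝ} (ht : t ≤ 1 / 2) : bump t = 0 := by
  unfold bump
  apply max_eq_left
  linarith

lemma continuous_bump : Continuous bump := by
  unfold bump
  fun_prop

/-- The supremum of the values of a function on a finite set. -/
noncomputable def supOn (φ : Hedgehog → ℝ) (s : SymProd Hedgehog n) : ℝ := sSup (φ '' s.1)

lemma le_supOn (φ : Hedgehog → ℝ) (s : SymProd Hedgehog n) {x : Hedgehog} (hx : x ∈ s.1) :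
    φ x ≤ supOn φ s :=
  le_csSup (s.2.2.1.image φ).bddAbove (mem_image_of_mem φ hx)

lemma supOn_lt_iff (φ : Hedgehog → ℝ) (s : SymProd Hedgehog n) (r : ℝ) :
    supOn φ s < r ↔ ∀ x ∈ s.1, φ x < r := by
  unfold supOn
  rw [(s.2.2.1.image φ).csSup_lt_iff (s.2.1.image φ)]
  simp

lemma lt_supOn_iff (φ : Hedgehog → ℝ) (s : SymProd Hedgehog n) (r : ℝ) :
    r < supOn φ s ↔ ∃ x ∈ s.1, r < φ x := by
  unfold supOn
  rw [lt_csSup_iff (s.2.2.1.image φ).bddAbove (s.2.1.image φ)]
  simp

/-- members of `E(n)` contained in an open set form an open set -/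
lemma isOpen_subset {U : Set Hedgehog} (hU : IsOpen U) :
    IsOpen {s : SymProd Hedgehog n | s.1 ⊆ U} := by
  apply TopologicalSpace.isOpen_generateFrom_of_mem
  refine ⟨1, fun _ => U, fun _ => hU, ?_⟩
  ext s
  simp only [basicSet, iUnion_const, mem_ofPred_eq, forall_const]
  constructor
  · intro h
    refine ⟨h, ?_⟩
    obtain ⟨x, hx⟩ := s.2.1
    exact ⟨x, hx, h hx⟩
  · exact fun h => h.1

/-- members of `E(n)` that meet an open set form an open set -/
lemma isOpen_meets {U : Set Hedgehog} (hU : IsOpen U) :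
    IsOpen {s : SymProd Hedgehog n | (s.1 ∩ U).Nonempty} := by
  apply TopologicalSpace.isOpen_generateFrom_of_mem
  refine ⟨2, ![U, univ], ?_, ?_⟩
  · intro i
    fin_cases i
    · exact hU
    · exact isOpen_univ
  · ext s
    simp only [basicSet, mem_ofPred_eq, Fin.forall_fin_two, Matrix.cons_val_zero,
      Matrix.cons_val_one, inter_univ]
    constructor
    · intro h
      refine ⟨fun x _ => mem_iUnion.2 ⟨1, mem_univ _⟩, h, s.2.1⟩
    · exact fun h => h.2.1

lemma continuous_supOn {φ : Hedgehog → ℝ} (hφ : Continuous φ) :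
    Continuous (supOn φ : SymProd Hedgehog n → ℝ) := by
  rw [OrderTopology.continuous_iff]
  intro a
  constructor
  · have : (supOn φ : SymProd Hedgehog n → ℝ) ⁻¹' Ioi a =
        {s | (s.1 ∩ φ ⁻¹' Ioi a).Nonempty} := by
      ext s
      simp only [mem_preimage, mem_Ioi, lt_supOn_iff, mem_ofPred_eq]
      rfl
    rw [this]
    exact isOpen_meets (isOpen_Ioi.preimage hφ)
  · have : (supOn φ : SymProd Hedgehog n → ℝ) ⁻¹' Iio a = {s | s.1 ⊆ φ ⁻¹' Iio a} := by
      ext s
      simp only [mem_preimage, mem_Iio, supOn_lt_iff, mem_ofPred_eq]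
      rfl
    rw [this]
    exact isOpen_subset (isOpen_Iio.preimage hφ)

/-- The function on `E` whose value at the end of the `k`-th spine is `k + 3`. -/
noncomputable def height (x : Hedgehog) : ℝ := (x.1.1 + 3) * bump x.1.2

lemma continuous_height : Continuous height := by
  rw [continuous_iff_continuousAt]
  intro x
  -- near `x` only one spine matters
  have h1 : ∀ᶠ y in nhds x, height y = (x.1.1 + 3) * bump (coord x.1.1 y) := by
    filter_upwards [Metric.ball_mem_nhds x (show (0 : ℝ) < 1 / 2 by norm_num)] with y hy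
    rw [Metric.mem_ball] at hy
    by_cases hxy : y.1.1 = x.1.1
    · have : coord x.1.1 y = y.1.2 := if_pos hxy
      rw [this]
      unfold height
      rw [hxy]
    · have h2 : coord x.1.1 y = 0 := if_neg hxy
      have h3 : dist y x = y.1.2 + x.1.2 := if_neg hxy
      have hx := x.2.1
      rw [h3] at hy
      unfold height
      rw [h2, bump_zero (by norm_num : (0 : ℝ) ≤ 1 / 2), bump_zero (by linarith), mul_zero,
        mul_zero]
  have h2 : ContinuousAt (fun y => ((x.1.1 : ℝ) + 3) * bump (coord x.1.1 y)) x := by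
    apply Continuous.continuousAt
    exact continuous_const.mul (continuous_bump.comp (continuous_coord _))
  exact h2.congr (h1.mono fun y hy => hy.symm)

/-- The value of `supOn height` at `gam t` is larger than `t`. -/
lemma lt_supOn_gam (hn : 2 ≤ n) (t : ℝ) : t < supOn height (gam hn t) := by
  have hf0 := Int.fract_nonneg t
  have hf1 := Int.fract_lt_one t
  have hkey : ∀ s : ℝ, t ≤ s → 1 / 4 ≤ Int.fract s → Int.fract s ≤ 3 / 4 →
      path s ∈ (gam hn t).1 → t < supOn height (gam hn t) := by
    intro s hs h1 h2 hmem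
    obtain ⟨h3, h4⟩ := path_end h1 h2
    refine lt_of_lt_of_le ?_ (le_supOn height _ hmem)
    unfold height
    rw [h3, h4, bump_one, mul_one]
    have := Nat.lt_floor_add_one s
    linarith
  by_cases h : 1 / 4 ≤ Int.fract t ∧ Int.fract t ≤ 3 / 4
  · exact hkey t le_rfl h.1 h.2 (mem_insert _ _)
  · -- then the other path is at the end of a spine
    have h' : 1 / 4 ≤ Int.fract (t + 1 / 2) ∧ Int.fract (t + 1 / 2) ≤ 3 / 4 := by
      by_cases h1 : Int.fract t < 1 / 4
      · have h2 : Int.fract (t + 1 / 2) = Int.fract t + 1 / 2 := by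
          rw [Int.fract_eq_iff]
          refine ⟨by linarith, by linarith, ⟨⌊t⌋, ?_⟩⟩
          have := Int.self_sub_floor t
          linarith
        rw [h2]
        constructor <;> linarith
      · have h3 : 3 / 4 < Int.fract t := by
          by_contra h4
          exact h ⟨not_lt.1 h1, not_lt.1 h4⟩
        have h2 : Int.fract (t + 1 / 2) = Int.fract t - 1 / 2 := by
          rw [Int.fract_eq_iff]
          refine ⟨by linarith, by linarith, ⟨⌊t⌋ + 1, ?_⟩⟩
          have := Int.self_sub_floor t
          push_cast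
          linarith
        rw [h2]
        constructor <;> linarith
    exact hkey (t + 1 / 2) (by linarith) h'.1 h'.2 (mem_insert_of_mem _ (mem_singleton _))

/-- For `n ≥ 2` the symmetric product `E(n)` does not have the fixed point property. -/
lemma not_fixedPointProperty (hn : 2 ≤ n) : ¬ FixedPointProperty (SymProd Hedgehog n) := by
  intro h
  have hpos : ∀ s : SymProd Hedgehog n, 0 ≤ supOn height s := by
    intro s
    obtain ⟨x, hx⟩ := s.2.1
    refine le_trans ?_ (le_supOn height s hx)
    unfold height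
    exact mul_nonneg (by positivity) (bump_nonneg _)
  have hc : Continuous fun s : SymProd Hedgehog n => gam hn (supOn height s) := by
    have := (continuousOn_gam hn).comp_continuous (continuous_supOn continuous_height)
      (fun s => hpos s)
    exact this
  obtain ⟨s, hs⟩ := h _ hc
  have h1 := lt_supOn_gam hn (supOn height s)
  rw [hs] at h1
  exact lt_irrefl _ h1

/-- There is a metric space `E` (complete, separable, contractible) with the fixed point property
such that no symmetric product `E(n)` with `n ≥ 2` has the fixed point property. -/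
theorem result : ∃ (E : Type) (_ : MetricSpace E), CompleteSpace E ∧
    TopologicalSpace.SeparableSpace E ∧ ContractibleSpace E ∧ FixedPointProperty E ∧
    ∀ n : ℕ, 2 ≤ n → ¬ FixedPointProperty (SymProd E n) :=
  ⟨Hedgehog, inferInstance, complete, separable, contractible, fixedPointProperty,
    fun _ hn => not_fixedPointProperty hn⟩

end Pool.Agent.Results.MP_3eb21e_gt.HedgehogPowers
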